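import Mathlib
import Pool.Agent.H586R3.CT8

set_option autoImplicit false

open MeasureTheory Polynomial

namespace Pool.Agent.Results.MP_46692b_an.SupportAreaZero

/-- **Q1 of MP_46692b, answered affirmatively.**  If the Cauchy transform
`z ↦ ∫ (z - ζ)⁻¹ dμ(ζ)` of a finite positive Borel measure `μ` on the plane satisfies a
polynomial equation `P(z, C_μ(z)) = 0` for Lebesgue-almost every `z`, where `P ∈ ℂ[z][w]` is any
nonzero polynomial (in particular any irreducible one), then the support of `μ` has planar
Lebesgue measure zero.  (Compactness of the support is not needed.) -/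
theorem result (μ : Measure ℂ) [IsFiniteMeasure μ] (P : ℂ[X][X]) (hP : P ≠ 0)
    (h : ∀ᵐ z : ℂ, P.evalEval z (∫ ζ, (z - ζ)⁻¹ ∂μ) = 0) :
    volume μ.support = 0 :=
  Pool.Agent.H586R3.CT.support_null μ P hP h

end Pool.Agent.Results.MP_46692b_an.SupportAreaZero
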